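import Mathlib
import Pool.Agent.K1H90.RY.Roy

/-!
# MP_3e7261_nt: counterexamples to Roy's conjecture do not come with irrational multiples

Let `M` be a skew-symmetric `4 × 4` matrix of rank at most `2` whose entries are logarithms of
algebraic numbers. If the entries of `c M` are logarithms of algebraic numbers, too, for an
irrational `c`, or if `c` is transcendental and the entries of `c M` are linear forms in `1` and
logarithms with algebraic coefficients, then Roy's alternative holds for `M`. So the counterexamples
with a given column space are rational multiples of one of them. The second part of the proof works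
over the algebraic numbers as well.

Proof: by the strong six exponentials theorem of Roy (`Pool.Agent.H301R2.SSE`) the entries of `M`
span a space of dimension at most two. By Baker's theorem the ratio of two independent entries is
transcendental, and so the Pfaffian vanishes identically on the pencil of the matrices of
coefficients, and the lines of an isotropic pencil have a common point
(`Pool.Agent.TH519.HS.Sk`).
-/

set_option autoImplicit false

namespace Pool.Agent.Results.MP_3e7261_nt.MultiplesOfMatrices

/-- The space of all linear combinations, with algebraic coefficients, of `1` and of logarithms of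
algebraic numbers. -/
noncomputable def LogForms : Submodule (algebraicClosure ℚ ℂ) ℂ :=
  Submodule.span (algebraicClosure ℚ ℂ) ({1} ∪ {z : ℂ | IsAlgebraic ℚ (Complex.exp z)})

/-- The conclusion of Roy's conjecture with a field `K` in place of `ℚ`: the rows of `M` are
linearly dependent over `K`, or the column space of `M` contains a nonzero vector with coordinates
in `K`. -/
def RoyAlternative (K : Type) [Field K] [Algebra K ℂ] (M : Matrix (Fin 4) (Fin 4) ℂ) : Prop :=
  (¬ LinearIndependent K (fun i : Fin 4 => (M i : Fin 4 → ℂ))) ∨
    ∃ v : Fin 4 → K, v ≠ 0 ∧ (fun i => algebraMap K ℂ (v i)) ∈ LinearMap.range M.mulVecLin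

/-- Let `M` be a skew-symmetric `4 × 4` matrix of rank at most `2`. (1) If the entries of `M` and of
`c M` are logarithms of algebraic numbers for some irrational `c`, Roy's alternative holds for `M`.
(2) The same for transcendental `c`, if the entries of `c M` are only linear forms in `1` and
logarithms with algebraic coefficients. (3) If this holds for the entries of `M` and of `c M`, and
`c` is transcendental, then the alternative holds over the field of the algebraic numbers. -/
theorem result (M : Matrix (Fin 4) (Fin 4) ℂ) (hM : M.transpose = -M) (hr : M.rank ≤ 2) :
    ((∀ i j, IsAlgebraic ℚ (Complex.exp (M i j))) → ∀ c : ℂ, (∀ q : ℚ, c ≠ q) →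
      (∀ i j, IsAlgebraic ℚ (Complex.exp (c * M i j))) → RoyAlternative ℚ M) ∧
    ((∀ i j, IsAlgebraic ℚ (Complex.exp (M i j))) → ∀ c : ℂ, Transcendental ℚ c →
      (∀ i j, c * M i j ∈ LogForms) → RoyAlternative ℚ M) ∧
    ((∀ i j, M i j ∈ LogForms) → ∀ c : ℂ, Transcendental ℚ c →
      (∀ i j, c * M i j ∈ LogForms) → RoyAlternative (algebraicClosure ℚ ℂ) M) :=
  ⟨fun h c hc h' => Pool.Agent.K1H90.RY.main_irr M hM hr h c hc h',
    fun h c hc h' => Pool.Agent.K1H90.RY.main_rat M hM hr h c hc h',
    fun h c hc h' => Pool.Agent.K1H90.RY.main_alg M hM hr h c hc h'⟩

end Pool.Agent.Results.MP_3e7261_nt.MultiplesOfMatrices
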